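import Pool.Agent.H65.CRG.TN
import Pool.Agent.H47.CRZ.AF

/-!
# (AF) The approximate functional equation with shifts, any degree
-/

set_option autoImplicit false

open NumberField NumberField.InfinitePlace Complex Filter Topology MeasureTheory

namespace Pool.Agent.H47.CRG

open Pool.Agent.H28.RC Pool.Agent.H25.HK Pool.Agent.H37.CV Pool.Agent.H65.CRZ
open Pool.Agent.H65.CRG Pool.Agent.H47.CRZ

section
variable {K : Type} [Field K] [NumberField K]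

/-- the factor of the completed function -/
theorem facn {Q : ℝ} (hQ : 0 < Q) (n : ℕ) (s : ℂ) :
    (Q : ℂ) ^ (s / 2) * Gammaℂ s ^ n =
      2 ^ n * (((Real.sqrt Q / (2 * Real.pi) ^ n : ℝ) : ℂ) ^ s * Gamma s ^ n) := by
  have hs : 0 < Real.sqrt Q := Real.sqrt_pos.2 hQ
  have hp : (0 : ℝ) < 2 * Real.pi := by positivity
  induction n with
  | zero =>
    have h := fac hQ s
    have hG : (Q : ℂ) ^ (s / 2) = ((Real.sqrt Q : ℝ) : ℂ) ^ s := by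
      have hq : (Q : ℂ) = ((Real.sqrt Q : ℝ) : ℂ) ^ (2 : ℂ) := by
        rw [show (2 : ℂ) = ((2 : ℕ) : ℂ) by norm_num, Complex.cpow_natCast]
        exact_mod_cast (Real.sq_sqrt hQ.le).symm
      have hl : Complex.log (((Real.sqrt Q : ℝ) : ℂ) ^ (2 : ℂ)) =
          2 * Complex.log ((Real.sqrt Q : ℝ) : ℂ) := by
        rw [← hq, ← Complex.ofReal_log hQ.le, ← Complex.ofReal_log hs.le, Real.log_sqrt hQ.le]
        push_cast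
        ring
      rw [hq, Complex.cpow_def_of_ne_zero (by rw [← hq]; exact_mod_cast hQ.ne'), hl,
        Complex.cpow_def_of_ne_zero (by exact_mod_cast hs.ne')]
      congr 1
      ring
    simp only [pow_zero, div_one, mul_one, one_mul]
    exact hG
  | succ n ih =>
    have e1 : ((Real.sqrt Q / (2 * Real.pi) ^ (n + 1) : ℝ) : ℂ) ^ s =
        ((Real.sqrt Q / (2 * Real.pi) ^ n : ℝ) : ℂ) ^ s * ((2 * Real.pi : ℝ) : ℂ) ^ (-s) := by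
      rw [pow_succ, ← div_div, div_eq_mul_inv (Real.sqrt Q / (2 * Real.pi) ^ n), Complex.ofReal_mul,
        Complex.mul_cpow_ofReal_nonneg (by positivity) (inv_nonneg.2 hp.le), Complex.ofReal_inv,
        Complex.inv_cpow _ _ (by
          rw [Complex.arg_ofReal_of_nonneg hp.le]; exact Real.pi_pos.ne), ← Complex.cpow_neg]
    have h2 : (2 * (Real.pi : ℂ)) = ((2 * Real.pi : ℝ) : ℂ) := by push_cast; rfl
    have e2 : Gammaℂ s = 2 * ((2 * Real.pi : ℝ) : ℂ) ^ (-s) * Gamma s := by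
      rw [Gammaℂ_def, h2]
    rw [e1, pow_succ, ← mul_assoc, ih, e2]
    ring

theorem HG_eqn (n : ℕ) {Λ Z : ℂ → ℂ} {Q : ℝ} (hQ : 0 < Q)
    (h : ∀ s : ℂ, (∀ n : ℕ, s ≠ -(n : ℂ)) → Λ s = (Q : ℂ) ^ (s / 2) * Gammaℂ s ^ n * Z s)
    (s₁ s₂ w : ℂ) (h1 : 0 < (s₁ + w).re) (h2 : 0 < (s₂ + w).re) :
    HG Λ s₁ s₂ w = 4 ^ n * ((Real.sqrt Q / (2 * Real.pi) ^ n : ℝ) : ℂ) ^ (s₁ + w + (s₂ + w)) *
      (Gamma (s₁ + w) * Gamma (s₂ + w)) ^ n *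
      (Z (s₁ + w) * (starRingEnd ℂ) (Z ((starRingEnd ℂ) (s₂ + w)))) := by
  have hn : ∀ u : ℂ, 0 < u.re → ∀ n : ℕ, u ≠ -(n : ℂ) := by
    intro u hu n hh
    have := congrArg Complex.re hh
    simp only [Complex.neg_re, Complex.natCast_re] at this
    have h2 : (0 : ℝ) ≤ n := Nat.cast_nonneg n
    linarith
  have hA : 0 < Real.sqrt Q / (2 * Real.pi) ^ n := div_pos (Real.sqrt_pos.2 hQ) (by positivity)
  have h4 : (4 : ℂ) ^ n = 2 ^ n * 2 ^ n := by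
    rw [← mul_pow]
    norm_num
  unfold HG
  rw [h _ (hn _ h1), h _ (hn _ (by rw [Complex.conj_re]; exact h2)), facn hQ,
    facn hQ, map_mul, map_mul, map_mul, map_pow, map_pow, Complex.Gamma_conj, Complex.conj_conj,
    Pool.Agent.H33.CV.cpow_conj_real hA.le, Complex.conj_ofNat,
    Complex.cpow_add (s₁ + w) (s₂ + w) (by exact_mod_cast hA.ne'), h4, mul_pow]
  ring

/-- the terms of the double series -/
noncomputable def TGn (n : ℕ) (χ : RCC K) (A : ℝ) (s₁ s₂ : ℂ) (p : NI K × NI K) (t : ℝ) : ℂ :=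
  χ.ψ p.1.1 * (starRingEnd ℂ) (χ.ψ p.2.1) *
    (((nm p.1.1 : ℝ) : ℂ) ^ (-s₁) * ((nm p.2.1 : ℝ) : ℂ) ^ (-s₂)) *
      (Gq s₁ s₂ (2 + t * I) ^ n * (cexp (2 * (2 + t * I) ^ 2) / (2 + t * I)) *
        ((nm p.1.1 * nm p.2.1 / A ^ 2 : ℝ) : ℂ) ^ (-(2 + t * I)))

theorem TG_eqn (n : ℕ) (χ : RCC K) {A : ℝ} (hA : 0 < A) (s₁ s₂ : ℂ) (p : NI K × NI K) (t : ℝ) :
    TGn n χ A s₁ s₂ p t = Gq s₁ s₂ (2 + t * I) ^ n * (cexp (2 * (2 + t * I) ^ 2) / (2 + t * I)) *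
      (pq χ (s₁ + (2 + t * I)) (s₂ + (2 + t * I)) p *
        (A : ℂ) ^ ((2 : ℂ) + t * I + (2 + t * I))) := by
  have h := pw_id2 (Pool.Agent.H33.CV.nm_pos' p.1) (Pool.Agent.H33.CV.nm_pos' p.2) hA s₁ s₂
    (2 + t * I)
  have e1 : ((nm p.1.1 : ℝ) : ℂ) = (Ideal.absNorm p.1.1 : ℂ) := by
    unfold nm
    exact Complex.ofReal_natCast _
  have e2 : ((nm p.2.1 : ℝ) : ℂ) = (Ideal.absNorm p.2.1 : ℂ) := by
    unfold nm
    exact Complex.ofReal_natCast _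
  rw [e1, e2] at h
  unfold TGn pq
  rw [e1, e2]
  calc χ.ψ p.1.1 * (starRingEnd ℂ) (χ.ψ p.2.1) *
        ((Ideal.absNorm p.1.1 : ℂ) ^ (-s₁) * (Ideal.absNorm p.2.1 : ℂ) ^ (-s₂)) *
        (Gq s₁ s₂ (2 + t * I) ^ n * (cexp (2 * (2 + t * I) ^ 2) / (2 + t * I)) *
          ((nm p.1.1 * nm p.2.1 / A ^ 2 : ℝ) : ℂ) ^ (-(2 + t * I)))
      = Gq s₁ s₂ (2 + t * I) ^ n * (cexp (2 * (2 + t * I) ^ 2) / (2 + t * I)) *
        (χ.ψ p.1.1 * (starRingEnd ℂ) (χ.ψ p.2.1) *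
          ((Ideal.absNorm p.1.1 : ℂ) ^ (-s₁) * (Ideal.absNorm p.2.1 : ℂ) ^ (-s₂) *
          ((nm p.1.1 * nm p.2.1 / A ^ 2 : ℝ) : ℂ) ^ (-(2 + t * I)))) := by ring
    _ = _ := by
        rw [← h]
        ring

/-- the product on the line `re = 2` -/
theorem HG_linen (n : ℕ) (χ : RCC K) {Λ Z : ℂ → ℂ} (hZ : IsEnt χ Z) {Q : ℝ} (hQ : 0 < Q)
    (h : ∀ s : ℂ, (∀ n : ℕ, s ≠ -(n : ℂ)) → Λ s = (Q : ℂ) ^ (s / 2) * Gammaℂ s ^ n * Z s)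
    (s₁ s₂ : ℂ) (h1 : 0 < s₁.re) (h2 : 0 < s₂.re)
    (t : ℝ) : HG Λ s₁ s₂ (2 + t * I) * (cexp (2 * (2 + t * I) ^ 2) / (2 + t * I)) =
      4 ^ n * ((Real.sqrt Q / (2 * Real.pi) ^ n : ℝ) : ℂ) ^ (s₁ + s₂) *
        (Gamma s₁ * Gamma s₂) ^ n * ∑' p, TGn n χ (Real.sqrt Q / (2 * Real.pi) ^ n) s₁ s₂ p t := by
  have hA : 0 < Real.sqrt Q / (2 * Real.pi) ^ n := div_pos (Real.sqrt_pos.2 hQ) (by positivity)
  obtain ⟨A, hAe⟩ : ∃ A : ℝ, A = Real.sqrt Q / (2 * Real.pi) ^ n := ⟨_, rfl⟩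
  have hre : ((2 : ℂ) + t * I).re = 2 := by simp
  have hr1 : 1 < (s₁ + (2 + t * I)).re := by
    rw [Complex.add_re, hre]
    linarith
  have hr2 : 1 < (s₂ + (2 + t * I)).re := by
    rw [Complex.add_re, hre]
    linarith
  have hr3 : 1 < ((starRingEnd ℂ) (s₂ + (2 + t * I))).re := by
    rw [Complex.conj_re]
    exact hr2
  rw [HG_eqn n hQ h _ _ _ (by linarith) (by linarith), ← hAe]
  rw [← hAe] at hA
  rw [hZ.2 _ hr1, hZ.2 _ hr3, Lc_prod2 χ hr1 hr2]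
  have e1 : ∀ p, TGn n χ A s₁ s₂ p t = (Gq s₁ s₂ (2 + t * I) ^ n *
      (cexp (2 * (2 + t * I) ^ 2) / (2 + t * I)) *
      (A : ℂ) ^ ((2 : ℂ) + t * I + (2 + t * I))) *
        pq χ (s₁ + (2 + t * I)) (s₂ + (2 + t * I)) p := by
    intro p
    rw [TG_eqn n χ hA]
    ring
  rw [tsum_congr e1, tsum_mul_left]
  have e2 : (A : ℂ) ^ (s₁ + (2 + t * I) + (s₂ + (2 + t * I))) =
      (A : ℂ) ^ (s₁ + s₂) * (A : ℂ) ^ ((2 : ℂ) + t * I + (2 + t * I)) := by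
    rw [← Complex.cpow_add _ _ (by exact_mod_cast hA.ne')]
    congr 1
    ring
  have hG1 : Gamma s₁ ≠ 0 := Complex.Gamma_ne_zero_of_re_pos h1
  have hG2 : Gamma s₂ ≠ 0 := Complex.Gamma_ne_zero_of_re_pos h2
  have e3 : (Gamma (s₁ + (2 + t * I)) * Gamma (s₂ + (2 + t * I))) ^ n =
      (Gamma s₁ * Gamma s₂) ^ n * Gq s₁ s₂ (2 + t * I) ^ n := by
    unfold Gq
    rw [← mul_pow, mul_div_cancel₀ _ (mul_ne_zero hG1 hG2)]
  rw [e2, e3]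
  ring

/-- interchange -/
theorem TG_sumn (hVG : Pool.Agent.H65.CRG.T_VG) (n : ℕ) (χ : RCC K) {A : ℝ} (hA : 0 < A) (s₁ s₂ : ℂ) (h1 : 1 / 4 ≤ s₁.re)
    (h1' : s₁.re ≤ 3 / 4) (h2 : 1 / 4 ≤ s₂.re) (h2' : s₂.re ≤ 3 / 4) :
    HasSum (fun p : NI K × NI K => ∫ t : ℝ, TGn n χ A s₁ s₂ p t)
      (∫ t : ℝ, ∑' p, TGn n χ A s₁ s₂ p t) := by
  obtain ⟨C, B, -, -, hv⟩ := hVG n 2 (by norm_num)
  have hint := (hv s₁ s₂ h1 h1' h2 h2' 1 one_pos).1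
  have e2 : ((2 : ℝ) : ℂ) = 2 := by norm_num
  simp only [e2, Complex.ofReal_one, Complex.one_cpow, mul_one] at hint
  obtain ⟨G, hG⟩ : ∃ G : ℝ → ℂ, G = fun t : ℝ =>
    Gq s₁ s₂ (2 + t * I) ^ n * (cexp (2 * (2 + t * I) ^ 2) / (2 + t * I)) := ⟨_, rfl⟩
  rw [← hG] at hint
  have hT : ∀ (p : NI K × NI K) (t : ℝ), TGn n χ A s₁ s₂ p t =
      (χ.ψ p.1.1 * (starRingEnd ℂ) (χ.ψ p.2.1) *
      (((nm p.1.1 : ℝ) : ℂ) ^ (-s₁) * ((nm p.2.1 : ℝ) : ℂ) ^ (-s₂))) *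
      (G t * ((nm p.1.1 * nm p.2.1 / A ^ 2 : ℝ) : ℂ) ^ (-((2 : ℂ) + t * I))) := by
    intro p t
    rw [hG]
    rfl
  have hQ : 0 < A ^ 2 := by positivity
  have hx : ∀ p : NI K × NI K, 0 < nm p.1.1 * nm p.2.1 / A ^ 2 := fun p =>
    div_pos (mul_pos (Pool.Agent.H33.CV.nm_pos' p.1) (Pool.Agent.H33.CV.nm_pos' p.2)) hQ
  have hnx : ∀ (p : NI K × NI K) (t : ℝ),
      ‖((nm p.1.1 * nm p.2.1 / A ^ 2 : ℝ) : ℂ) ^ (-((2 : ℂ) + t * I))‖ =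
        (nm p.1.1 * nm p.2.1 / A ^ 2) ^ (-(2 : ℝ)) := by
    intro p t
    rw [Complex.norm_cpow_eq_rpow_re_of_pos (hx p)]
    congr 1
    simp
  have hi : ∀ p : NI K × NI K, Integrable (fun t : ℝ =>
      G t * ((nm p.1.1 * nm p.2.1 / A ^ 2 : ℝ) : ℂ) ^ (-((2 : ℂ) + t * I))) := by
    intro p
    refine hint.mul_bdd (c := (nm p.1.1 * nm p.2.1 / A ^ 2) ^ (-(2 : ℝ))) ?_
      (Eventually.of_forall fun t => (hnx p t).le)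
    refine Continuous.aestronglyMeasurable ?_
    refine Continuous.const_cpow (by fun_prop) (Or.inl ?_)
    exact_mod_cast (hx p).ne'
  have hψ : ∀ I : NI K, ‖χ.ψ I.1‖ ≤ 1 := fun I => Pool.Agent.H28.RC.rcc_norm_le χ I.1
  have hsm1 : Summable fun I : NI K => nm I.1 ^ (-(s₁.re + 2)) :=
    Pool.Agent.H33.CV.nm_summable (s := s₁.re + 2) (by linarith)
  have hsm2 : Summable fun I : NI K => nm I.1 ^ (-(s₂.re + 2)) :=
    Pool.Agent.H33.CV.nm_summable (s := s₂.re + 2) (by linarith)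
  have hsm : Summable fun p : NI K × NI K =>
      nm p.1.1 ^ (-(s₁.re + 2)) * nm p.2.1 ^ (-(s₂.re + 2)) :=
    hsm1.mul_of_nonneg hsm2 (fun I => Real.rpow_nonneg (Pool.Agent.H33.CV.nm_pos' I).le _)
      (fun I => Real.rpow_nonneg (Pool.Agent.H33.CV.nm_pos' I).le _)
  refine hasSum_integral_of_summable_integral_norm (fun p => ?_) ?_
  · have : TGn n χ A s₁ s₂ p = fun t => (χ.ψ p.1.1 * (starRingEnd ℂ) (χ.ψ p.2.1) *
      (((nm p.1.1 : ℝ) : ℂ) ^ (-s₁) * ((nm p.2.1 : ℝ) : ℂ) ^ (-s₂))) *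
      (G t * ((nm p.1.1 * nm p.2.1 / A ^ 2 : ℝ) : ℂ) ^ (-((2 : ℂ) + t * I))) := funext (hT p)
    rw [this]
    exact (hi p).const_mul _
  · refine Summable.of_nonneg_of_le (fun p => integral_nonneg fun t => norm_nonneg _)
      (fun p => ?_) (hsm.mul_left (((A ^ 2) ^ (2 : ℝ)) * ∫ t, ‖G t‖))
    have ha := Pool.Agent.H33.CV.nm_pos' p.1
    have hb := Pool.Agent.H33.CV.nm_pos' p.2
    have e3 : ∀ t, ‖TGn n χ A s₁ s₂ p t‖ ≤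
        (A ^ 2) ^ (2 : ℝ) * (nm p.1.1 ^ (-(s₁.re + 2)) * nm p.2.1 ^ (-(s₂.re + 2))) * ‖G t‖ := by
      intro t
      rw [hT, norm_mul, norm_mul, norm_mul, norm_mul, norm_mul, hnx, RCLike.norm_conj,
        Complex.norm_cpow_eq_rpow_re_of_pos ha, Complex.norm_cpow_eq_rpow_re_of_pos hb,
        Complex.neg_re, Complex.neg_re]
      have e4 := pw_real2 (x := s₁.re) (y := s₂.re) ha hb hA
      have e5 : ‖χ.ψ p.1.1‖ * ‖χ.ψ p.2.1‖ ≤ 1 :=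
        mul_le_one₀ (hψ _) (norm_nonneg _) (hψ _)
      calc ‖χ.ψ p.1.1‖ * ‖χ.ψ p.2.1‖ * (nm p.1.1 ^ (-s₁.re) * nm p.2.1 ^ (-s₂.re)) *
            (‖G t‖ * (nm p.1.1 * nm p.2.1 / A ^ 2) ^ (-(2 : ℝ)))
          = ‖χ.ψ p.1.1‖ * ‖χ.ψ p.2.1‖ * ((nm p.1.1 ^ (-s₁.re) * nm p.2.1 ^ (-s₂.re) *
            (nm p.1.1 * nm p.2.1 / A ^ 2) ^ (-(2 : ℝ))) * ‖G t‖) := by ring
        _ ≤ 1 * ((nm p.1.1 ^ (-s₁.re) * nm p.2.1 ^ (-s₂.re) *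
            (nm p.1.1 * nm p.2.1 / A ^ 2) ^ (-(2 : ℝ))) * ‖G t‖) :=
            mul_le_mul_of_nonneg_right e5 (by have := hx p; positivity)
        _ = _ := by rw [one_mul, e4]
    calc ∫ t, ‖TGn n χ A s₁ s₂ p t‖ ≤ ∫ t, (A ^ 2) ^ (2 : ℝ) *
          (nm p.1.1 ^ (-(s₁.re + 2)) * nm p.2.1 ^ (-(s₂.re + 2))) * ‖G t‖ :=
          integral_mono_of_nonneg (Eventually.of_forall fun t => norm_nonneg _)
            (hint.norm.const_mul _) (Eventually.of_forall e3)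
      _ = _ := by
          rw [integral_const_mul]
          ring

/-- the sum of the integrals -/
theorem TG_A2n (hVG : Pool.Agent.H65.CRG.T_VG) (χ : RCC K) {A : ℝ} (hA : 0 < A) (s₁ s₂ : ℂ) (h1 : 1 / 4 ≤ s₁.re)
    (h1' : s₁.re ≤ 3 / 4) (h2 : 1 / 4 ≤ s₂.re) (h2' : s₂.re ≤ 3 / 4) :
    ∫ t : ℝ, ∑' p, TGn (nrComplexPlaces K) χ A s₁ s₂ p t =
      2 * Real.pi * A2n (A ^ 2) s₁ s₂ χ.ψ := by
  rw [← (TG_sumn hVG (nrComplexPlaces K) χ hA s₁ s₂ h1 h1' h2 h2').tsum_eq]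
  unfold A2n
  rw [← tsum_mul_left]
  refine tsum_congr fun p => ?_
  unfold Vn TGn
  rw [integral_const_mul]
  have hπ : (Real.pi : ℂ) ≠ 0 := by exact_mod_cast Real.pi_ne_zero
  have hc : 2 * (Real.pi : ℂ) * ((1 / (2 * Real.pi) : ℝ) : ℂ) = 1 := by
    push_cast
    field_simp
  generalize (∫ a : ℝ, Gq s₁ s₂ (2 + a * I) ^ nrComplexPlaces K *
    (cexp (2 * (2 + a * I) ^ 2) / (2 + a * I)) *
      ((nm p.1.1 * nm p.2.1 / A ^ 2 : ℝ) : ℂ) ^ (-((2 : ℂ) + a * I))) = J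
  linear_combination (-(χ.ψ p.1.1 * (starRingEnd ℂ) (χ.ψ p.2.1) *
    (((nm p.1.1 : ℝ) : ℂ) ^ (-s₁) * ((nm p.2.1 : ℝ) : ℂ) ^ (-s₂)) * J)) * hc

end

/-- target AF of the board -/
theorem pf_AF (h1 : Pool.Agent.H65.CRG.T_VG) : Pool.Agent.H65.CRG.T_AF := by
  intro K _ _ _ χ hf Z hZ s₁ s₂ ha ha' hb hb'
  obtain ⟨Z', Λ, ε, hZ', hΛ, hΛe, hε, hfe, hbd⟩ := a_EN K χ hf
  obtain rfl := Pool.Agent.H33.CV.ent_unique χ hZ hZ'
  obtain ⟨n, hn⟩ : ∃ n : ℕ, n = nrComplexPlaces K := ⟨_, rfl⟩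
  rw [← hn] at hΛe ⊢
  have hQ : 0 < cnd K χ.f := Pool.Agent.H33.CV.cnd_pos' χ.f χ.f_ne
  have hA : 0 < Real.sqrt (cnd K χ.f) / (2 * Real.pi) ^ n :=
    div_pos (Real.sqrt_pos.2 hQ) (by positivity)
  have hAe : cB K χ.f = Real.sqrt (cnd K χ.f) / (2 * Real.pi) ^ n := by
    rw [hn]
    rfl
  obtain ⟨C, hC⟩ := hbd 3
  have hH := HG_diff hΛ s₁ s₂
  have hbH : ∀ s : ℂ, |s.re| ≤ 2 → ‖HG Λ s₁ s₂ s‖ ≤ C * C := by
    intro s hs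
    rw [abs_le] at hs
    have h2 : |(s₁ + s).re| ≤ 3 := by
      rw [Complex.add_re, abs_le]
      constructor <;> linarith [hs.1, hs.2]
    have h3 : |((starRingEnd ℂ) (s₂ + s)).re| ≤ 3 := by
      rw [Complex.conj_re, Complex.add_re, abs_le]
      constructor <;> linarith [hs.1, hs.2]
    unfold HG
    rw [norm_mul, RCLike.norm_conj]
    have h4 := hC _ h2
    exact mul_le_mul h4 (hC _ h3) (norm_nonneg _) ((norm_nonneg _).trans h4)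
  have hCC : 0 ≤ C * C := mul_self_nonneg C
  have key := Pool.Agent.H28.PZ.All.sh (fun w => HG Λ s₁ s₂ w * cexp (2 * w ^ 2)) (-2) 2
    (C * C * Real.exp 9) 0 (by norm_num) (by norm_num)
    (fun s _ _ => (hH s).mul (by fun_prop)) (fun s hs1 hs2 => by
      have hb1 := hbH s (abs_le.2 ⟨hs1, hs2⟩)
      rw [norm_mul, Complex.norm_exp, mul_assoc, ← Real.exp_add]
      refine mul_le_mul hb1 (Real.exp_le_exp.2 ?_) (Real.exp_nonneg _) hCC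
      have e : (2 * s ^ 2).re = 2 * (s.re ^ 2 - s.im ^ 2) := by
        rw [pow_two]
        simp only [Complex.mul_re, Complex.re_ofNat, Complex.im_ofNat, Complex.mul_im]
        ring
      rw [e]
      have h3 : s.re ^ 2 ≤ 4 := by nlinarith
      have h4 : |s.im| ^ 2 = s.im ^ 2 := sq_abs _
      nlinarith [sq_nonneg (|s.im| - 1 / 2)])
  simp only [sub_zero, zero_pow two_ne_zero, mul_zero, Complex.exp_zero, mul_one] at key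
  have e2 : ((2 : ℝ) : ℂ) = 2 := by norm_num
  have e2' : ((-2 : ℝ) : ℂ) = -2 := by norm_num
  rw [e2, e2'] at key
  have hA2 : ∀ u v : ℂ, 1 / 4 ≤ u.re → u.re ≤ 3 / 4 → 1 / 4 ≤ v.re → v.re ≤ 3 / 4 →
      2 * Real.pi * A2n ((Real.sqrt (cnd K χ.f) / (2 * Real.pi) ^ n) ^ 2) u v χ.ψ =
        ∫ t : ℝ, ∑' p, TGn n χ (Real.sqrt (cnd K χ.f) / (2 * Real.pi) ^ n) u v p t := by
    intro u v h3 h4 h5 h6
    rw [← TG_A2n h1 χ hA u v h3 h4 h5 h6, hn]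
  have hpos : (∫ t : ℝ, HG Λ s₁ s₂ (2 + t * I) * cexp (2 * (2 + t * I) ^ 2) / (2 + t * I)) =
      4 ^ n * (cB K χ.f : ℂ) ^ (s₁ + s₂) * (Gamma s₁ * Gamma s₂) ^ n *
        (2 * Real.pi * A2n (cB K χ.f ^ 2) s₁ s₂ χ.ψ) := by
    rw [hAe, hA2 s₁ s₂ ha ha' hb hb', ← integral_const_mul]
    refine integral_congr_ae (Eventually.of_forall fun t => ?_)
    beta_reduce
    rw [← HG_linen n χ hZ hQ hΛe s₁ s₂ (by linarith) (by linarith) t, mul_div_assoc]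
  have hr1 : 1 / 4 ≤ (1 - s₁).re ∧ (1 - s₁).re ≤ 3 / 4 := by
    rw [Complex.sub_re, Complex.one_re]
    constructor <;> linarith
  have hr2 : 1 / 4 ≤ (1 - s₂).re ∧ (1 - s₂).re ≤ 3 / 4 := by
    rw [Complex.sub_re, Complex.one_re]
    constructor <;> linarith
  have hneg : (∫ t : ℝ, HG Λ s₁ s₂ (-2 + t * I) * cexp (2 * (-2 + t * I) ^ 2) / (-2 + t * I)) =
      -(4 ^ n * (cB K χ.f : ℂ) ^ (1 - s₂ + (1 - s₁)) * (Gamma (1 - s₂) * Gamma (1 - s₁)) ^ n *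
        (2 * Real.pi * A2n (cB K χ.f ^ 2) (1 - s₂) (1 - s₁) χ.ψ)) := by
    rw [hAe, hA2 (1 - s₂) (1 - s₁) hr2.1 hr2.2 hr1.1 hr1.2, ← integral_const_mul,
      ← integral_neg, ← integral_neg_eq_self (fun t : ℝ => HG Λ s₁ s₂ (-2 + t * I) *
        cexp (2 * (-2 + t * I) ^ 2) / (-2 + t * I)) volume]
    refine integral_congr_ae (Eventually.of_forall fun t => ?_)
    beta_reduce
    rw [← HG_linen n χ hZ hQ hΛe (1 - s₂) (1 - s₁) (by linarith [hr2.1]) (by linarith [hr1.1]) t]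
    have e3 : (-2 : ℂ) + ((-t : ℝ) : ℂ) * I = -(2 + t * I) := by
      push_cast
      ring
    rw [e3, HG_neg hε hfe, neg_sq, div_neg, mul_div_assoc]
  rw [hpos, hneg] at key
  have h0 := HG_eqn n hQ hΛe s₁ s₂ 0 (by rw [add_zero]; linarith) (by rw [add_zero]; linarith)
  simp only [add_zero] at h0
  rw [h0, ← hAe] at key
  have hπ : (Real.pi : ℂ) ≠ 0 := by exact_mod_cast Real.pi_ne_zero
  have hAc : (cB K χ.f : ℂ) ≠ 0 := by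
    rw [hAe]
    exact_mod_cast hA.ne'
  have hG1 : Gamma s₁ ≠ 0 := Complex.Gamma_ne_zero_of_re_pos (by linarith)
  have hG2 : Gamma s₂ ≠ 0 := Complex.Gamma_ne_zero_of_re_pos (by linarith)
  have hAp : (cB K χ.f : ℂ) ^ (s₁ + s₂) ≠ 0 := by
    rw [Ne, Complex.cpow_eq_zero_iff]
    rintro ⟨h, -⟩
    exact hAc h
  have e5 : (cB K χ.f : ℂ) ^ (1 - s₂ + (1 - s₁)) =
      (cB K χ.f : ℂ) ^ (s₁ + s₂) * (cB K χ.f : ℂ) ^ (2 - 2 * (s₁ + s₂)) := by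
    rw [← Complex.cpow_add _ _ hAc]
    congr 1
    ring
  rw [e5] at key
  have hc : ((1 / (2 * Real.pi) : ℝ) : ℂ) * (2 * Real.pi) = 1 := by
    push_cast
    field_simp
  have hne : 4 ^ n * (cB K χ.f : ℂ) ^ (s₁ + s₂) * (Gamma s₁ * Gamma s₂) ^ n ≠ 0 :=
    mul_ne_zero (mul_ne_zero (pow_ne_zero _ (by norm_num)) hAp)
      (pow_ne_zero _ (mul_ne_zero hG1 hG2))
  refine mul_left_cancel₀ hne ?_
  rw [← key]
  unfold Xn
  have hx : 4 ^ n * (cB K χ.f : ℂ) ^ (s₁ + s₂) * (Gamma s₁ * Gamma s₂) ^ n *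
      ((cB K χ.f : ℂ) ^ (2 - 2 * (s₁ + s₂)) * (Gamma (1 - s₁) * Gamma (1 - s₂) /
        (Gamma s₁ * Gamma s₂)) ^ n * A2n (cB K χ.f ^ 2) (1 - s₂) (1 - s₁) χ.ψ) =
      4 ^ n * ((cB K χ.f : ℂ) ^ (s₁ + s₂) * (cB K χ.f : ℂ) ^ (2 - 2 * (s₁ + s₂))) *
        (Gamma (1 - s₂) * Gamma (1 - s₁)) ^ n *
          A2n (cB K χ.f ^ 2) (1 - s₂) (1 - s₁) χ.ψ := by
    rw [div_pow, mul_comm (Gamma (1 - s₂)) (Gamma (1 - s₁))]
    have hGn : (Gamma s₁ * Gamma s₂) ^ n ≠ 0 := pow_ne_zero _ (mul_ne_zero hG1 hG2)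
    generalize (Gamma s₁ * Gamma s₂) ^ n = u at hGn ⊢
    generalize (Gamma (1 - s₁) * Gamma (1 - s₂)) ^ n = v
    field_simp
  rw [mul_add (4 ^ n * (cB K χ.f : ℂ) ^ (s₁ + s₂) * (Gamma s₁ * Gamma s₂) ^ n), hx]
  linear_combination (4 ^ n * (cB K χ.f : ℂ) ^ (s₁ + s₂) * (Gamma s₁ * Gamma s₂) ^ n *
    A2n (cB K χ.f ^ 2) s₁ s₂ χ.ψ + 4 ^ n * ((cB K χ.f : ℂ) ^ (s₁ + s₂) *
      (cB K χ.f : ℂ) ^ (2 - 2 * (s₁ + s₂))) * (Gamma (1 - s₂) * Gamma (1 - s₁)) ^ n *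
        A2n (cB K χ.f ^ 2) (1 - s₂) (1 - s₁) χ.ψ) * hc

end Pool.Agent.H47.CRG
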